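import Mathlib

/-!
# Balanced orientations which follow prescribed transitions

At every vertex `v` the involution `τ v` pairs the neighbours of `v`.  Following the transitions
`u → v → τ v u` gives an orientation in which `u → v` if and only if `v → τ v u`.
-/

set_option autoImplicit false

namespace Pool.Agent.Lib.GHShort

open Classical

section

variable {V : Type} (G : SimpleGraph V)

/-- `τ v` is an involution without fixed points on the neighbours of `v`. -/
structure Trans (τ : V → V → V) : Prop where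
  mem : ∀ v u, G.Adj v u → G.Adj v (τ v u)
  inv : ∀ v u, G.Adj v u → τ v (τ v u) = u
  ne : ∀ v u, G.Adj v u → τ v u ≠ u

/-- The arcs of `G`. -/
abbrev Arc : Type := {p : V × V // G.Adj p.1 p.2}

variable {G}

/-- The next arc. -/
def nxt {τ : V → V → V} (h : Trans G τ) : Equiv.Perm (Arc G) where
  toFun a := ⟨(a.1.2, τ a.1.2 a.1.1), h.mem _ _ a.2.symm⟩
  invFun a := ⟨(τ a.1.1 a.1.2, a.1.1), (h.mem _ _ a.2).symm⟩
  left_inv := by
    rintro ⟨⟨u, v⟩, huv⟩
    simp only [Subtype.mk.injEq, Prod.mk.injEq, and_true]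
    exact h.inv _ _ huv.symm
  right_inv := by
    rintro ⟨⟨u, v⟩, huv⟩
    simp only [Subtype.mk.injEq, Prod.mk.injEq, true_and]
    exact h.inv _ _ huv

/-- The reversed arc. -/
def rv : Equiv.Perm (Arc G) where
  toFun a := ⟨(a.1.2, a.1.1), a.2.symm⟩
  invFun a := ⟨(a.1.2, a.1.1), a.2.symm⟩
  left_inv _ := rfl
  right_inv _ := rfl

lemma rv_rv (a : Arc G) : rv (rv a) = a := rfl

lemma rv_ne (a : Arc G) : rv a ≠ a := by
  intro h
  have h1 := congrArg (fun b : Arc G => b.1.1) h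
  exact a.2.ne h1.symm

variable {τ : V → V → V} (h : Trans G τ)

lemma rv_nxt (a : Arc G) : nxt h (rv (nxt h a)) = rv a := by
  obtain ⟨⟨u, v⟩, huv⟩ := a
  show (⟨(v, τ v (τ v u)), _⟩ : Arc G) = ⟨(v, u), _⟩
  simp only [Subtype.mk.injEq, Prod.mk.injEq, true_and]
  exact h.inv _ _ huv.symm

lemma rv_semi : SemiconjBy (rv : Equiv.Perm (Arc G)) (nxt h) (nxt h)⁻¹ := by
  unfold SemiconjBy
  rw [eq_inv_mul_iff_mul_eq]
  ext1 a
  exact rv_nxt h a

lemma rv_zpow (i : ℤ) (a : Arc G) : rv ((nxt h ^ i) a) = (nxt h ^ (-i)) (rv a) := by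
  have h1 := (rv_semi h).zpow_right i
  have h2 := congrArg (fun f : Equiv.Perm (Arc G) => f a) h1
  simp only [Equiv.Perm.mul_apply] at h2
  rw [h2, zpow_neg, inv_zpow]

lemma not_sameCycle (a : Arc G) : ¬ (nxt h).SameCycle a (rv a) := by
  rintro ⟨i, hi⟩
  rcases Int.even_or_odd' i with ⟨j, hj | hj⟩
  · refine rv_ne ((nxt h ^ j) a) ?_
    rw [rv_zpow, ← hi, ← Equiv.Perm.mul_apply, ← zpow_add, hj]
    congr 2
    ring
  · have h1 : rv ((nxt h ^ j) a) = nxt h ((nxt h ^ j) a) := by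
      rw [rv_zpow, ← hi, ← Equiv.Perm.mul_apply, ← zpow_add, ← Equiv.Perm.mul_apply,
        ← zpow_one_add, hj]
      congr 2
      ring
    set b := (nxt h ^ j) a with hb
    obtain ⟨⟨u, v⟩, huv⟩ := b
    have h2 := congrArg (fun b : Arc G => b.1.2) h1
    exact h.ne v u huv.symm h2.symm

/-- The orientation along the transitions. -/
theorem exists_orient [Finite V] {τ : V → V → V} (h : Trans G τ) : ∃ D : V → V → Prop,
    (∀ u v, D u v → G.Adj u v) ∧ (∀ u v, G.Adj u v → (D v u ↔ ¬ D u v)) ∧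
    ∀ v u, G.Adj v u → (D u v ↔ D v (τ v u)) := by
  let s : Setoid (Arc G) := Equiv.Perm.SameCycle.setoid (nxt h)
  let f := Finite.equivFin (Quotient s)
  have hne : ∀ a : Arc G, f ⟦a⟧ ≠ f ⟦rv a⟧ := by
    intro a h1
    have h2 := f.injective h1
    exact not_sameCycle h a (Quotient.exact h2)
  have hnx : ∀ a : Arc G, (⟦nxt h a⟧ : Quotient s) = ⟦a⟧ := by
    intro a
    refine Quotient.sound ?_
    show (nxt h).SameCycle (nxt h a) a
    rw [Equiv.Perm.sameCycle_apply_left]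
  have hrn : ∀ a : Arc G, (⟦rv (nxt h a)⟧ : Quotient s) = ⟦rv a⟧ := by
    intro a
    rw [← hnx (rv (nxt h a)), rv_nxt]
  refine ⟨fun u v => ∃ huv : G.Adj u v, f ⟦⟨(u, v), huv⟩⟧ < f ⟦rv ⟨(u, v), huv⟩⟧,
    fun u v ⟨huv, _⟩ => huv, ?_, ?_⟩
  · intro u v huv
    constructor
    · rintro ⟨_, h1⟩ ⟨_, h2⟩
      exact lt_asymm h1 h2
    · intro h1
      refine ⟨huv.symm, ?_⟩
      by_contra h2
      rw [not_lt] at h2
      exact h1 ⟨huv, lt_of_le_of_ne h2 (hne ⟨(u, v), huv⟩)⟩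
  · intro v u hvu
    have h1 := hnx ⟨(u, v), hvu.symm⟩
    have h2 := hrn ⟨(u, v), hvu.symm⟩
    constructor
    · rintro ⟨_, h3⟩
      refine ⟨h.mem v u hvu, ?_⟩
      rw [← h1, ← h2] at h3
      exact h3
    · rintro ⟨_, h3⟩
      refine ⟨hvu.symm, ?_⟩
      rw [← h1, ← h2]
      exact h3

end

end Pool.Agent.Lib.GHShort
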