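import Mathlib
import Pool.Agent.Lib.GHShort.Orient

/-!
# Transitions along edge-disjoint cycles
-/

set_option autoImplicit false

namespace Pool.Agent.Lib.GHShort

open Finset Classical

section

variable {α : Type}

/-- An involution without fixed points on a set of even size. -/
lemma exists_invol (S : Finset α) (hS : Even S.card) :
    ∃ τ : α → α, ∀ a ∈ S, τ a ∈ S ∧ τ (τ a) = a ∧ τ a ≠ a := by
  obtain ⟨k, hk⟩ := hS
  have h1 : Fintype.card S = Fintype.card (Fin k × Bool) := by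
    rw [Fintype.card_coe, hk, Fintype.card_prod, Fintype.card_fin, Fintype.card_bool]
    ring
  let e : S ≃ Fin k × Bool := Fintype.equivOfCardEq h1
  let g : S → S := fun a => e.symm ((e a).1, !(e a).2)
  have hg : ∀ a, g (g a) = a := by
    intro a
    show e.symm ((e (e.symm ((e a).1, !(e a).2))).1, !(e (e.symm ((e a).1, !(e a).2))).2) = a
    rw [Equiv.apply_symm_apply]
    simp
  have hg2 : ∀ a, g a ≠ a := by
    intro a h
    have h2 : e (g a) = e a := by rw [h]
    have h3 : e (g a) = ((e a).1, !(e a).2) := Equiv.apply_symm_apply _ _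
    rw [h3] at h2
    have h4 := congrArg Prod.snd h2
    simp at h4
  refine ⟨fun a => if h : a ∈ S then (g ⟨a, h⟩ : S).1 else a, ?_⟩
  intro a ha
  have h1 : (if h : a ∈ S then (g ⟨a, h⟩ : S).1 else a) = (g ⟨a, ha⟩ : S).1 := dif_pos ha
  refine ⟨?_, ?_, ?_⟩
  · show (if h : a ∈ S then (g ⟨a, h⟩ : S).1 else a) ∈ S
    rw [h1]
    exact (g ⟨a, ha⟩).2
  · show (if h : (if h : a ∈ S then (g ⟨a, h⟩ : S).1 else a) ∈ S then _ else _) = a
    simp only [h1]
    rw [dif_pos (g ⟨a, ha⟩).2]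
    exact congrArg Subtype.val (hg ⟨a, ha⟩)
  · show (if h : a ∈ S then (g ⟨a, h⟩ : S).1 else a) ≠ a
    rw [h1]
    intro h
    exact hg2 ⟨a, ha⟩ (Subtype.ext h)

/-- A set with an involution without fixed points has even size. -/
lemma even_of_invol (X : Finset α) (t : α → α) (h1 : ∀ a ∈ X, t a ∈ X)
    (h2 : ∀ a ∈ X, t (t a) = a) (h3 : ∀ a ∈ X, t a ≠ a) : Even X.card := by
  have h4 : ∑ a ∈ X, (1 : ZMod 2) = 0 := by
    refine Finset.sum_involution (fun a _ => t a) ?_ ?_ ?_ ?_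
    · intro a _
      decide
    · intro a ha _
      exact h3 a ha
    · intro a ha
      exact h1 a ha
    · intro a ha
      exact h2 a ha
  rw [Finset.sum_const, nsmul_eq_mul, mul_one] at h4
  exact (ZMod.natCast_eq_zero_iff_even).mp h4

/-- Complete a set of disjoint pairs to an involution without fixed points. -/
lemma exists_extend (S : Finset α) (hS : Even S.card) (R : α → α → Prop)
    (hR1 : ∀ a b, R a b → a ∈ S) (hR2 : ∀ a b, R a b → R b a) (hR3 : ∀ a, ¬ R a a)
    (hR4 : ∀ a b b', R a b → R a b' → b = b') :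
    ∃ τ : α → α, (∀ a ∈ S, τ a ∈ S ∧ τ (τ a) = a ∧ τ a ≠ a) ∧ ∀ a b, R a b → τ a = b := by
  set X := S.filter (fun a => ∃ b, R a b) with hX
  have hex : ∀ a, ∃ b, (∃ b, R a b) → R a b := by
    intro a
    by_cases h : ∃ b, R a b
    · obtain ⟨b, hb⟩ := h
      exact ⟨b, fun _ => hb⟩
    · exact ⟨a, fun h' => absurd h' h⟩
  choose t ht using hex
  have hXt : ∀ a ∈ X, R a (t a) := fun a ha => ht a (Finset.mem_filter.mp ha).2
  have hXX : ∀ a ∈ X, t a ∈ X := fun a ha =>
    Finset.mem_filter.mpr ⟨hR1 _ _ (hR2 _ _ (hXt a ha)), a, hR2 _ _ (hXt a ha)⟩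
  have hXi : ∀ a ∈ X, t (t a) = a := fun a ha =>
    hR4 (t a) _ _ (hXt _ (hXX a ha)) (hR2 _ _ (hXt a ha))
  have hXn : ∀ a ∈ X, t a ≠ a := fun a ha h => hR3 a (by
    have := hXt a ha
    rwa [h] at this)
  have hXe : Even X.card := even_of_invol X t hXX hXi hXn
  have hSX : Even (S \ X).card := by
    rw [Finset.card_sdiff_of_subset (Finset.filter_subset _ _)]
    exact (Nat.even_sub (Finset.card_le_card (Finset.filter_subset _ _))).mpr
      ⟨fun _ => hXe, fun _ => hS⟩
  obtain ⟨τ, hτ⟩ := exists_invol (S \ X) hSX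
  refine ⟨fun a => if a ∈ X then t a else τ a, ?_, ?_⟩
  · intro a ha
    by_cases h : a ∈ X
    · have h1 : (if a ∈ X then t a else τ a) = t a := if_pos h
      simp only [h1]
      refine ⟨Finset.filter_subset _ _ (hXX a h), ?_, hXn a h⟩
      rw [if_pos (hXX a h)]
      exact hXi a h
    · have h1 : (if a ∈ X then t a else τ a) = τ a := if_neg h
      simp only [h1]
      obtain ⟨h2, h3, h4⟩ := hτ a (Finset.mem_sdiff.mpr ⟨ha, h⟩)
      refine ⟨(Finset.mem_sdiff.mp h2).1, ?_, h4⟩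
      rw [if_neg (Finset.mem_sdiff.mp h2).2]
      exact h3
  · intro a b hab
    have ha : a ∈ X := Finset.mem_filter.mpr ⟨hR1 a b hab, b, hab⟩
    show (if a ∈ X then t a else τ a) = b
    rw [if_pos ha]
    exact hR4 a _ _ (hXt a ha) hab

end

section

variable {V : Type} [Fintype V] {G : SimpleGraph V}

/-- A cycle has at most two edges at a vertex. -/
lemma cycle_three {z : V} {p : G.Walk z z} (hp : p.IsCycle) {v u w x : V}
    (h1 : s(v, u) ∈ p.edges) (h2 : s(v, w) ∈ p.edges) (h3 : s(v, x) ∈ p.edges)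
    (hw : u ≠ w) (hx : u ≠ x) : w = x := by
  have hv : v ∈ p.support := SimpleGraph.Walk.fst_mem_support_of_mem_edges p h1
  have h4 := hp.ncard_neighborSet_toSubgraph_eq_two hv
  have hm : ∀ y, s(v, y) ∈ p.edges → y ∈ p.toSubgraph.neighborSet v := by
    intro y hy
    rw [SimpleGraph.Subgraph.mem_neighborSet, ← SimpleGraph.Subgraph.mem_edgeSet,
      SimpleGraph.Walk.mem_edges_toSubgraph]
    exact hy
  by_contra hwx
  have h5 : ({u, w, x} : Set V).ncard = 3 := by
    rw [Set.ncard_eq_toFinset_card']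
    simp [hw, hx, hwx]
  have h6 : ({u, w, x} : Set V) ⊆ p.toSubgraph.neighborSet v := by
    intro y hy
    simp only [Set.mem_insert_iff, Set.mem_singleton_iff] at hy
    rcases hy with rfl | rfl | rfl
    · exact hm _ h1
    · exact hm _ h2
    · exact hm _ h3
  have h7 := Set.ncard_le_ncard h6 (Set.toFinite _)
  omega

/-- The cycles of length at most `d` are pairwise edge-disjoint. -/
def ShortDisj (G : SimpleGraph V) (d : ℕ) : Prop :=
  ∀ (u v : V) (p : G.Walk u u) (q : G.Walk v v), p.IsCycle → q.IsCycle → p.length ≤ d →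
    q.length ≤ d → (∃ e ∈ p.edges, e ∈ q.edges) → ∀ e, e ∈ p.edges ↔ e ∈ q.edges

/-- There is a balanced orientation in which every short cycle is directed. -/
theorem exists_directed (d : ℕ) (hG : ∀ v, Even (univ.filter (fun u => G.Adj v u)).card)
    (hd : ShortDisj G d) : ∃ D : V → V → Prop,
      (∀ u v, D u v → G.Adj u v) ∧ (∀ u v, G.Adj u v → (D v u ↔ ¬ D u v)) ∧
      (∃ τ : V → V → V, Trans G τ ∧ ∀ v u, G.Adj v u → (D u v ↔ D v (τ v u))) ∧
      ∀ (z : V) (p : G.Walk z z), p.IsCycle → p.length ≤ d → ∀ u v w, s(v, u) ∈ p.edges →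
        s(v, w) ∈ p.edges → u ≠ w → (D u v ↔ D v w) := by
  let R : V → V → V → Prop := fun v u w => u ≠ w ∧ ∃ (z : V) (p : G.Walk z z), p.IsCycle ∧
    p.length ≤ d ∧ s(v, u) ∈ p.edges ∧ s(v, w) ∈ p.edges
  have hex : ∀ v, ∃ τ : V → V, (∀ a ∈ univ.filter (fun u => G.Adj v u),
      τ a ∈ univ.filter (fun u => G.Adj v u) ∧ τ (τ a) = a ∧ τ a ≠ a) ∧
      ∀ a b, R v a b → τ a = b := by
    intro v
    refine exists_extend _ (hG v) (R v) ?_ ?_ ?_ ?_
    · rintro a b ⟨_, z, p, _, _, h1, _⟩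
      exact Finset.mem_filter.mpr ⟨Finset.mem_univ _, p.adj_of_mem_edges h1⟩
    · rintro a b ⟨h0, z, p, h1, h2, h3, h4⟩
      exact ⟨h0.symm, z, p, h1, h2, h4, h3⟩
    · rintro a ⟨h0, _⟩
      exact h0 rfl
    · rintro a b b' ⟨h0, z, p, h1, h2, h3, h4⟩ ⟨g0, y, q, g1, g2, g3, g4⟩
      have h5 := hd z y p q h1 g1 h2 g2 ⟨_, h3, g3⟩
      exact cycle_three h1 h3 h4 ((h5 _).mpr g4) h0 g0
  choose τ hτ1 hτ2 using hex
  have hT : Trans G τ := by
    refine ⟨fun v u h => ?_, fun v u h => ?_, fun v u h => ?_⟩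
    · exact (Finset.mem_filter.mp
        (hτ1 v u (Finset.mem_filter.mpr ⟨Finset.mem_univ _, h⟩)).1).2
    · exact (hτ1 v u (Finset.mem_filter.mpr ⟨Finset.mem_univ _, h⟩)).2.1
    · exact (hτ1 v u (Finset.mem_filter.mpr ⟨Finset.mem_univ _, h⟩)).2.2
  obtain ⟨D, hD1, hD2, hD3⟩ := exists_orient hT
  refine ⟨D, hD1, hD2, ⟨τ, hT, hD3⟩, ?_⟩
  intro z p hp hl u v w hu hw huw
  have h1 := hD3 v u (p.adj_of_mem_edges hu)
  rw [hτ2 v u w ⟨huw, z, p, hp, hl, hu, hw⟩] at h1
  exact h1

/-- The in-degree and the out-degree. -/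
theorem orient_degrees {k : ℕ} {D : V → V → Prop} (hD1 : ∀ u v, D u v → G.Adj u v)
    (hD2 : ∀ u v, G.Adj u v → (D v u ↔ ¬ D u v)) {τ : V → V → V} (hT : Trans G τ)
    (hD3 : ∀ v u, G.Adj v u → (D u v ↔ D v (τ v u)))
    (v : V) (hk : (univ.filter (fun u => G.Adj v u)).card = 2 * k) :
    (univ.filter (fun w => D v w)).card = k ∧ (univ.filter (fun w => D w v)).card = k := by
  have h1 : (univ.filter (fun w => D v w)).card = (univ.filter (fun w => D w v)).card := by
    refine Finset.card_bij' (fun w _ => τ v w) (fun w _ => τ v w) ?_ ?_ ?_ ?_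
    · intro w hw
      have hw := (Finset.mem_filter.mp hw).2
      have ha : G.Adj v w := hD1 _ _ hw
      refine Finset.mem_filter.mpr ⟨Finset.mem_univ _, ?_⟩
      rw [hD3 v (τ v w) (hT.mem _ _ ha), hT.inv _ _ ha]
      exact hw
    · intro w hw
      have hw := (Finset.mem_filter.mp hw).2
      have ha : G.Adj v w := (hD1 _ _ hw).symm
      refine Finset.mem_filter.mpr ⟨Finset.mem_univ _, ?_⟩
      exact (hD3 v w ha).mp hw
    · intro w hw
      exact hT.inv _ _ (hD1 _ _ (Finset.mem_filter.mp hw).2)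
    · intro w hw
      exact hT.inv _ _ (hD1 _ _ (Finset.mem_filter.mp hw).2).symm
  have h2 : univ.filter (fun u => G.Adj v u) =
      univ.filter (fun w => D v w) ∪ univ.filter (fun w => D w v) := by
    ext w
    simp only [Finset.mem_filter, Finset.mem_univ, true_and, Finset.mem_union]
    constructor
    · intro h
      have := hD2 v w h
      tauto
    · rintro (h | h)
      · exact hD1 _ _ h
      · exact (hD1 _ _ h).symm
  have h3 : Disjoint (univ.filter (fun w => D v w)) (univ.filter (fun w => D w v)) := by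
    rw [Finset.disjoint_left]
    intro w hw hw'
    have h4 := (Finset.mem_filter.mp hw).2
    have h5 := (Finset.mem_filter.mp hw').2
    exact (hD2 v w (hD1 _ _ h4)).mp h5 h4
  rw [h2, Finset.card_union_of_disjoint h3] at hk
  omega

end

end Pool.Agent.Lib.GHShort
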