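import Mathlib
import Pool.Agent.Lib.GHShort.Invol

/-!
# Two short cycles sharing an edge span more edges than vertices
-/

set_option autoImplicit false

namespace Pool.Agent.Lib.GHShort

open Finset Classical

section

variable {V : Type} {G : SimpleGraph V}

lemma walk_old {A : Finset V} {E : Finset (Sym2 V)} (hE : ∀ a b, s(a, b) ∈ E → a ∈ A) {a b : V}
    (w : G.Walk a b) (hb : b ∈ A) (h : ∀ dt ∈ w.darts, dt.snd ∈ A → dt.edge ∈ E) :
    a ∈ A ∧ ∀ e ∈ w.edges, e ∈ E := by
  induction w with
  | nil => exact ⟨hb, by simp⟩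
  | @cons u v w h' p ih =>
    have h1 := ih hb (fun dt hdt => h dt (by simp [hdt]))
    have h2 : s(u, v) ∈ E := h ⟨(u, v), h'⟩ (by simp) h1.1
    refine ⟨hE u v h2, ?_⟩
    intro e he
    rw [SimpleGraph.Walk.edges_cons, List.mem_cons] at he
    rcases he with rfl | he
    · exact h2
    · exact h1.2 e he

/-- A cycle which meets `A` and has an edge outside `E` has more new edges than new vertices. -/
lemma new_edges {A : Finset V} {E : Finset (Sym2 V)} (hE : ∀ a b, s(a, b) ∈ E → a ∈ A) {c : V}
    (q : G.Walk c c) (hq : q.IsCycle) (hc : c ∈ A) (hne : ∃ e ∈ q.edges, e ∉ E) :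
    (q.support.toFinset \ A).card + 1 ≤ (q.edges.toFinset \ E).card := by
  have hex : ∃ dt ∈ q.darts, dt.snd ∈ A ∧ dt.edge ∉ E := by
    by_contra hcon
    push Not at hcon
    obtain ⟨e, he1, he2⟩ := hne
    exact he2 ((walk_old hE q hc hcon).2 e he1)
  obtain ⟨d0, hd0, hd1, hd2⟩ := hex
  have hs : (q.darts.map (·.snd)).Nodup := by
    rw [SimpleGraph.Walk.map_snd_darts]
    exact hq.support_nodup
  have he : (q.darts.map SimpleGraph.Dart.edge).Nodup := by
    rw [← SimpleGraph.Walk.edges_eq_map_darts]
    exact hq.isTrail.edges_nodup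
  set X := q.darts.toFinset.filter (fun dt => dt.snd ∉ A) with hX
  set Y := q.darts.toFinset.filter (fun dt => dt.edge ∉ E) with hY
  have h1 : q.support.toFinset \ A ⊆ X.image (·.snd) := by
    intro x hx
    rw [Finset.mem_sdiff, List.mem_toFinset, ← SimpleGraph.Walk.cons_map_snd_darts,
      List.mem_cons] at hx
    obtain ⟨hx1, hx2⟩ := hx
    rcases hx1 with rfl | hx1
    · exact absurd hc hx2
    · rw [List.mem_map] at hx1
      obtain ⟨dt, hdt, rfl⟩ := hx1
      exact Finset.mem_image.mpr ⟨dt, Finset.mem_filter.mpr ⟨List.mem_toFinset.mpr hdt, hx2⟩, rfl⟩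
  have h2 : insert d0 X ⊆ Y := by
    intro dt hdt
    rw [Finset.mem_insert] at hdt
    rcases hdt with rfl | hdt
    · exact Finset.mem_filter.mpr ⟨List.mem_toFinset.mpr hd0, hd2⟩
    · rw [hX, Finset.mem_filter] at hdt
      refine Finset.mem_filter.mpr ⟨hdt.1, ?_⟩
      intro h
      refine hdt.2 (hE dt.snd dt.fst ?_)
      rw [Sym2.eq_swap]
      exact h
  have h3 : d0 ∉ X := by
    intro h
    rw [hX, Finset.mem_filter] at h
    exact h.2 hd1
  have h4 : Y.image SimpleGraph.Dart.edge ⊆ q.edges.toFinset \ E := by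
    intro e hee
    rw [Finset.mem_image] at hee
    obtain ⟨dt, hdt, rfl⟩ := hee
    rw [hY, Finset.mem_filter, List.mem_toFinset] at hdt
    rw [Finset.mem_sdiff, List.mem_toFinset, SimpleGraph.Walk.edges_eq_map_darts]
    exact ⟨List.mem_map_of_mem hdt.1, hdt.2⟩
  have h5 : (Y.image SimpleGraph.Dart.edge).card = Y.card := by
    refine Finset.card_image_of_injOn ?_
    intro x hx y hy hxy
    rw [Finset.mem_coe, hY, Finset.mem_filter, List.mem_toFinset] at hx hy
    exact List.inj_on_of_nodup_map he hx.1 hy.1 hxy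
  calc (q.support.toFinset \ A).card + 1 ≤ (X.image (·.snd)).card + 1 :=
        Nat.add_le_add_right (Finset.card_le_card h1) 1
    _ ≤ X.card + 1 := Nat.add_le_add_right Finset.card_image_le 1
    _ = (insert d0 X).card := (Finset.card_insert_of_notMem h3).symm
    _ ≤ Y.card := Finset.card_le_card h2
    _ = (Y.image SimpleGraph.Dart.edge).card := h5.symm
    _ ≤ _ := Finset.card_le_card h4

lemma exists_bad_aux {d : ℕ} {u v : V} (p : G.Walk u u) (q : G.Walk v v) (hp : p.IsCycle)
    (hq : q.IsCycle) (hpd : p.length ≤ d) (hqd : q.length ≤ d)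
    (h1 : ∃ e ∈ p.edges, e ∈ q.edges) (h2 : ∃ e ∈ q.edges, e ∉ p.edges) :
    ∃ (F : Finset (Sym2 V)) (W : Finset V), F.card ≤ 2 * d ∧ W.Nonempty ∧ W.card < F.card ∧
      (∀ e ∈ F, e ∈ G.edgeSet) ∧ ∀ a b, s(a, b) ∈ F → a ∈ W := by
  obtain ⟨e0, he0, he1⟩ := h1
  induction e0 with
  | _ a b =>
    have ha : a ∈ q.support := SimpleGraph.Walk.fst_mem_support_of_mem_edges q he1
    have hap : a ∈ p.support := SimpleGraph.Walk.fst_mem_support_of_mem_edges p he0
    have hcy : (q.rotate a ha).IsCycle := hq.rotate ha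
    have hE : ∀ x y, s(x, y) ∈ p.edges.toFinset → x ∈ p.support.toFinset := by
      intro x y hxy
      rw [List.mem_toFinset] at hxy ⊢
      exact SimpleGraph.Walk.fst_mem_support_of_mem_edges p hxy
    have hne : ∃ e ∈ (q.rotate a ha).edges, e ∉ p.edges.toFinset := by
      obtain ⟨e, he, he'⟩ := h2
      refine ⟨e, (SimpleGraph.Walk.rotate_edges q a ha).perm.mem_iff.mpr he, ?_⟩
      rwa [List.mem_toFinset]
    have hnew := new_edges hE (q.rotate a ha) hcy (List.mem_toFinset.mpr hap) hne
    have hpE : p.edges.toFinset.card = p.length := by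
      rw [List.toFinset_card_of_nodup hp.isTrail.edges_nodup, SimpleGraph.Walk.length_edges]
    have hqE : (q.rotate a ha).edges.toFinset.card ≤ q.length := by
      refine (List.toFinset_card_le _).trans ?_
      rw [SimpleGraph.Walk.length_edges, SimpleGraph.Walk.length_rotate]
    have hpA : p.support.toFinset.card ≤ p.length := by
      have h3 : p.support.toFinset ⊆ p.support.tail.toFinset := by
        intro x hx
        rw [List.mem_toFinset] at hx ⊢
        rw [← SimpleGraph.Walk.cons_tail_support, List.mem_cons] at hx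
        rcases hx with rfl | hx
        · exact SimpleGraph.Walk.end_mem_tail_support hp.not_nil
        · exact hx
      refine (Finset.card_le_card h3).trans ((List.toFinset_card_le _).trans ?_)
      rw [List.length_tail, SimpleGraph.Walk.length_support]
      omega
    refine ⟨p.edges.toFinset ∪ (q.rotate a ha).edges.toFinset,
      p.support.toFinset ∪ (q.rotate a ha).support.toFinset, ?_, ?_, ?_, ?_, ?_⟩
    · refine (Finset.card_union_le _ _).trans ?_
      omega
    · exact ⟨a, Finset.mem_union_left _ (List.mem_toFinset.mpr hap)⟩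
    · have h3 : (p.support.toFinset ∪ (q.rotate a ha).support.toFinset).card =
          p.support.toFinset.card + ((q.rotate a ha).support.toFinset \ p.support.toFinset).card := by
        rw [← Finset.union_sdiff_self_eq_union, Finset.card_union_of_disjoint disjoint_sdiff]
      have h4 : (p.edges.toFinset ∪ (q.rotate a ha).edges.toFinset).card =
          p.edges.toFinset.card + ((q.rotate a ha).edges.toFinset \ p.edges.toFinset).card := by
        rw [← Finset.union_sdiff_self_eq_union, Finset.card_union_of_disjoint disjoint_sdiff]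
      rw [h3, h4]
      omega
    · intro e he
      rw [Finset.mem_union, List.mem_toFinset, List.mem_toFinset] at he
      rcases he with he | he
      · exact SimpleGraph.Walk.edges_subset_edgeSet p he
      · exact SimpleGraph.Walk.edges_subset_edgeSet _ he
    · intro x y he
      rw [Finset.mem_union, List.mem_toFinset, List.mem_toFinset] at he
      rw [Finset.mem_union, List.mem_toFinset, List.mem_toFinset]
      rcases he with he | he
      · exact Or.inl (SimpleGraph.Walk.fst_mem_support_of_mem_edges p he)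
      · exact Or.inr (SimpleGraph.Walk.fst_mem_support_of_mem_edges _ he)

/-- If two short cycles overlap then few vertices span many edges. -/
theorem exists_bad {d : ℕ} (h : ¬ ShortDisj G d) :
    ∃ (F : Finset (Sym2 V)) (W : Finset V), F.card ≤ 2 * d ∧ W.Nonempty ∧ W.card < F.card ∧
      (∀ e ∈ F, e ∈ G.edgeSet) ∧ ∀ a b, s(a, b) ∈ F → a ∈ W := by
  unfold ShortDisj at h
  push Not at h
  obtain ⟨u, v, p, q, hp, hq, hpd, hqd, ⟨e0, he0, he1⟩, e, he⟩ := h
  rcases he with he | he
  · exact exists_bad_aux q p hq hp hqd hpd ⟨e0, he1, he0⟩ ⟨e, he⟩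
  · exact exists_bad_aux p q hp hq hpd hqd ⟨e0, he0, he1⟩ ⟨e, he.2, he.1⟩

end

end Pool.Agent.Lib.GHShort
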