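import Mathlib

/-!
# Switchings in regular graphs
The number of `k`-regular graphs containing a given small set of edges.
-/

set_option autoImplicit false

namespace Pool.Agent.Lib.GHShort

open Finset Classical

section

variable {V : Type} [Fintype V]

/-- The `k`-regular graphs on `V` containing the edges `F`. -/
noncomputable def Reg (V : Type) [Fintype V] (k : ℕ) (F : Finset (Sym2 V)) :
    Finset (SimpleGraph V) :=
  univ.filter fun G => (∀ v, (univ.filter fun u => G.Adj v u).card = k) ∧ ∀ e ∈ F, e ∈ G.edgeSet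

lemma mem_Reg {k : ℕ} {F : Finset (Sym2 V)} {G : SimpleGraph V} :
    G ∈ Reg V k F ↔ (∀ v, (univ.filter fun u => G.Adj v u).card = k) ∧
      ∀ e ∈ F, e ∈ G.edgeSet := by
  simp [Reg]

/-- The switched graph. -/
def sw (G : SimpleGraph V) (u v x y : V) (h1 : u ≠ x) (h2 : v ≠ y) : SimpleGraph V where
  Adj a b := (G.Adj a b ∧ s(a, b) ≠ s(u, v) ∧ s(a, b) ≠ s(x, y)) ∨ s(a, b) = s(u, x) ∨
    s(a, b) = s(v, y)
  symm := by
    constructor
    intro a b h
    rw [Sym2.eq_swap (a := b) (b := a)]
    rcases h with h | h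
    · exact Or.inl ⟨h.1.symm, h.2⟩
    · exact Or.inr h
  loopless := by
    constructor
    intro a h
    rcases h with h | h | h
    · exact G.loopless.irrefl a h.1
    · rw [Sym2.eq_iff] at h
      rcases h with h | h
      · exact h1 (h.1.symm.trans h.2)
      · exact h1 (h.2.symm.trans h.1)
    · rw [Sym2.eq_iff] at h
      rcases h with h | h
      · exact h2 (h.1.symm.trans h.2)
      · exact h2 (h.2.symm.trans h.1)

omit [Fintype V] in
lemma card_insert_erase {S : Finset V} {a b : V} (ha : a ∈ S) (hb : b ∉ S) :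
    (insert b (S.erase a)).card = S.card := by
  rw [Finset.card_insert_of_notMem (fun h => hb (Finset.mem_of_mem_erase h)),
    Finset.card_erase_of_mem ha]
  have := Finset.card_pos.mpr ⟨a, ha⟩
  omega

/-- The good pairs for the switching of the edge `u v`. -/
noncomputable def good (G : SimpleGraph V) (F : Finset (Sym2 V)) (u v : V) : Finset (V × V) :=
  univ.filter fun p => G.Adj p.1 p.2 ∧ u ≠ p.1 ∧ ¬ G.Adj u p.1 ∧ v ≠ p.2 ∧ ¬ G.Adj v p.2 ∧
    s(p.1, p.2) ∉ F

lemma sw_degree {G : SimpleGraph V} {u v x y : V} (huv : G.Adj u v) (hxy : G.Adj x y)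
    (h1 : u ≠ x) (h2 : v ≠ y) (h3 : ¬ G.Adj u x) (h4 : ¬ G.Adj v y) (w : V) :
    (univ.filter fun z => (sw G u v x y h1 h2).Adj w z).card =
      (univ.filter fun z => G.Adj w z).card := by
  have huv' := huv.ne
  have hxy' := hxy.ne
  have hux : v ≠ x := fun h => h3 (h ▸ huv)
  have hvy : u ≠ y := fun h => h4 (h ▸ huv.symm)
  by_cases hu : w = u
  · subst hu
    rw [← card_insert_erase (S := univ.filter fun z => G.Adj w z) (a := v) (b := x)
      (by simp [huv]) (by simp [h3])]
    congr 1
    ext z
    simp only [sw, mem_filter, mem_univ, true_and, mem_insert, mem_erase, Sym2.eq_iff, ne_eq,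
      true_and, h1, hvy, huv', false_and, or_false, false_or]
    tauto
  by_cases hv : w = v
  · subst hv
    rw [← card_insert_erase (S := univ.filter fun z => G.Adj w z) (a := u) (b := y)
      (by simp [huv.symm]) (by simp [h4])]
    congr 1
    ext z
    simp only [sw, mem_filter, mem_univ, true_and, mem_insert, mem_erase, Sym2.eq_iff, ne_eq,
      true_and, h2, hux, huv'.symm, false_and, or_false, false_or, hu]
    tauto
  by_cases hx : w = x
  · subst hx
    have h5 : ¬ G.Adj w u := fun h => h3 h.symm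
    rw [← card_insert_erase (S := univ.filter fun z => G.Adj w z) (a := y) (b := u)
      (by simp [hxy]) (by simp [h5])]
    congr 1
    ext z
    simp only [sw, mem_filter, mem_univ, true_and, mem_insert, mem_erase, Sym2.eq_iff, ne_eq,
      true_and, hxy', false_and, or_false, false_or, hu, hv]
    tauto
  by_cases hy : w = y
  · subst hy
    have h5 : ¬ G.Adj w v := fun h => h4 h.symm
    rw [← card_insert_erase (S := univ.filter fun z => G.Adj w z) (a := x) (b := v)
      (by simp [hxy.symm]) (by simp [h5])]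
    congr 1
    ext z
    simp only [sw, mem_filter, mem_univ, true_and, mem_insert, mem_erase, Sym2.eq_iff, ne_eq,
      true_and, hx, false_and, or_false, false_or, hu, hv]
    tauto
  · congr 1
    ext z
    simp only [sw, mem_filter, mem_univ, true_and, Sym2.eq_iff, ne_eq, hx, hy, hu, hv, false_and,
      or_false, not_false_eq_true, and_true, or_self]

lemma sw_mem {k : ℕ} {F : Finset (Sym2 V)} {G : SimpleGraph V} {u v x y : V} (hne : s(u, v) ∉ F)
    (hG : G ∈ Reg V k (insert s(u, v) F)) (hp : (x, y) ∈ good G F u v) (h1 : u ≠ x)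
    (h2 : v ≠ y) : sw G u v x y h1 h2 ∈ Reg V k F := by
  rw [mem_Reg] at hG ⊢
  simp only [good, mem_filter, mem_univ, true_and] at hp
  obtain ⟨hxy, -, h3, -, h4, h5⟩ := hp
  have huv : G.Adj u v := hG.2 s(u, v) (Finset.mem_insert_self _ _)
  refine ⟨fun w => ?_, ?_⟩
  · rw [sw_degree huv hxy h1 h2 h3 h4 w]
    exact hG.1 w
  · intro e he
    have h6 := hG.2 e (Finset.mem_insert_of_mem he)
    induction e with
    | _ a b =>
      refine Or.inl ⟨h6, ?_, ?_⟩
      · intro h
        exact hne (h ▸ he)
      · intro h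
        exact h5 (h ▸ he)

/-- Recover a graph from the switched one. -/
lemma sw_adj {G : SimpleGraph V} {u v x y : V} (huv : G.Adj u v) (hxy : G.Adj x y)
    (h1 : u ≠ x) (h2 : v ≠ y) (h3 : ¬ G.Adj u x) (h4 : ¬ G.Adj v y) (a b : V) :
    G.Adj a b ↔ ((sw G u v x y h1 h2).Adj a b ∧ s(a, b) ≠ s(u, x) ∧ s(a, b) ≠ s(v, y)) ∨
      s(a, b) = s(u, v) ∨ s(a, b) = s(x, y) := by
  constructor
  · intro h
    by_cases h5 : s(a, b) = s(u, v)
    · exact Or.inr (Or.inl h5)
    by_cases h6 : s(a, b) = s(x, y)
    · exact Or.inr (Or.inr h6)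
    refine Or.inl ⟨Or.inl ⟨h, h5, h6⟩, ?_, ?_⟩
    · intro h7
      refine h3 ?_
      have h8 : s(a, b) ∈ G.edgeSet := h
      rw [h7] at h8
      exact h8
    · intro h7
      refine h4 ?_
      have h8 : s(a, b) ∈ G.edgeSet := h
      rw [h7] at h8
      exact h8
  · rintro (⟨h5 | h5, h6, h7⟩ | h5 | h5)
    · exact h5.1
    · exact absurd h5 (by tauto)
    · have h8 : s(u, v) ∈ G.edgeSet := huv
      rw [← h5] at h8
      exact h8
    · have h8 : s(x, y) ∈ G.edgeSet := hxy
      rw [← h5] at h8
      exact h8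

/-- The pairs which can come from a switching. -/
noncomputable def targets (G : SimpleGraph V) (u v : V) : Finset (V × V) :=
  (univ.filter fun z => G.Adj u z) ×ˢ (univ.filter fun z => G.Adj v z)

/-- The double counting. -/
lemma sum_good_le {k : ℕ} {F : Finset (Sym2 V)} {u v : V} (hne : s(u, v) ∉ F) :
    ∑ G ∈ Reg V k (insert s(u, v) F), (good G F u v).card ≤ k ^ 2 * (Reg V k F).card := by
  have h1 : ∑ G ∈ Reg V k F, (targets G u v).card = k ^ 2 * (Reg V k F).card := by
    rw [Finset.sum_congr rfl (g := fun _ => k ^ 2)]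
    · rw [Finset.sum_const, smul_eq_mul, mul_comm]
    · intro G hG
      rw [mem_Reg] at hG
      rw [targets, Finset.card_product, hG.1 u, hG.1 v, sq]
  rw [← h1, ← Finset.card_sigma, ← Finset.card_sigma]
  refine Finset.card_le_card_of_injOn
    (fun q => ⟨if h : u ≠ q.2.1 ∧ v ≠ q.2.2 then sw q.1 u v q.2.1 q.2.2 h.1 h.2 else q.1, q.2⟩)
    ?_ ?_
  · rintro ⟨G, x, y⟩ hq
    rw [Finset.mem_coe, Finset.mem_sigma] at hq
    obtain ⟨hG, hp⟩ := hq
    simp only at hG hp
    have hp' := hp
    simp only [good, mem_filter, mem_univ, true_and] at hp'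
    rw [Finset.mem_coe, Finset.mem_sigma]
    simp only
    rw [dif_pos ⟨hp'.2.1, hp'.2.2.2.1⟩]
    refine ⟨sw_mem hne hG hp _ _, ?_⟩
    rw [targets, Finset.mem_product]
    simp only [mem_filter, mem_univ, true_and]
    exact ⟨Or.inr (Or.inl rfl), Or.inr (Or.inr rfl)⟩
  · rintro ⟨G, x, y⟩ hq ⟨G', x', y'⟩ hq' h
    rw [Finset.mem_coe, Finset.mem_sigma] at hq hq'
    obtain ⟨hG, hp⟩ := hq
    obtain ⟨hG', hp'⟩ := hq'
    simp only [good, mem_filter, mem_univ, true_and] at hG hp hG' hp'
    simp only at h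
    rw [dif_pos ⟨hp.2.1, hp.2.2.2.1⟩, dif_pos ⟨hp'.2.1, hp'.2.2.2.1⟩, Sigma.mk.injEq] at h
    obtain ⟨h5, h6⟩ := h
    have h7 := eq_of_heq h6
    rw [Prod.mk.injEq] at h7
    obtain ⟨rfl, rfl⟩ := h7
    rw [mem_Reg] at hG hG'
    have huv : G.Adj u v := hG.2 s(u, v) (Finset.mem_insert_self _ _)
    have huv' : G'.Adj u v := hG'.2 s(u, v) (Finset.mem_insert_self _ _)
    have h8 : G = G' := by
      ext a b
      rw [sw_adj huv hp.1 hp.2.1 hp.2.2.2.1 hp.2.2.1 hp.2.2.2.2.1 a b,
        sw_adj huv' hp'.1 hp.2.1 hp.2.2.2.1 hp'.2.2.1 hp'.2.2.2.2.1 a b, h5]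
    rw [h8]

lemma card_sum_pairs (S : Finset V) (r : V → V → Prop) :
    ((univ : Finset (V × V)).filter fun p => p.1 ∈ S ∧ r p.1 p.2).card =
      ∑ x ∈ S, (univ.filter fun y => r x y).card := by
  rw [← Finset.card_sigma]
  refine Finset.card_bij (fun p _ => ⟨p.1, p.2⟩) ?_ ?_ ?_
  · rintro ⟨x, y⟩ h
    simp only [mem_filter, mem_univ, true_and] at h
    simp only [Finset.mem_sigma, mem_filter, mem_univ, true_and]
    exact h
  · rintro ⟨x, y⟩ _ ⟨x', y'⟩ _ h
    simp only [Sigma.mk.injEq, heq_eq_eq] at h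
    rw [h.1, h.2]
  · rintro ⟨x, y⟩ h
    simp only [Finset.mem_sigma, mem_filter, mem_univ, true_and] at h
    exact ⟨(x, y), by simpa using h, rfl⟩

/-- A lower bound for the number of good pairs. -/
lemma card_good {k : ℕ} {F : Finset (Sym2 V)} {G : SimpleGraph V} {u v : V}
    (hG : ∀ w, (univ.filter fun z => G.Adj w z).card = k) :
    Fintype.card V * k ≤ (good G F u v).card + 2 * ((k + 1) * k) + 2 * F.card := by
  have h1 : ((univ : Finset (V × V)).filter fun p => p.1 ∈ (univ : Finset V) ∧
      G.Adj p.1 p.2).card = Fintype.card V * k := by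
    rw [card_sum_pairs univ G.Adj, Finset.sum_congr rfl (fun x _ => hG x), Finset.sum_const,
      smul_eq_mul, Finset.card_univ]
  have hN : ∀ w, (insert w (univ.filter fun z => G.Adj w z)).card = k + 1 := by
    intro w
    rw [Finset.card_insert_of_notMem (by simp), hG w]
  have h2 : ((univ : Finset (V × V)).filter fun p =>
      p.1 ∈ insert u (univ.filter fun z => G.Adj u z) ∧ G.Adj p.1 p.2).card = (k + 1) * k := by
    rw [card_sum_pairs _ G.Adj, Finset.sum_congr rfl (fun x _ => hG x), Finset.sum_const,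
      smul_eq_mul, hN u]
  have h3 : ((univ : Finset (V × V)).filter fun p =>
      p.1 ∈ insert v (univ.filter fun z => G.Adj v z) ∧ G.Adj p.1 p.2).card = (k + 1) * k := by
    rw [card_sum_pairs _ G.Adj, Finset.sum_congr rfl (fun x _ => hG x), Finset.sum_const,
      smul_eq_mul, hN v]
  have h3' : (((univ : Finset (V × V)).filter fun p =>
      p.1 ∈ insert v (univ.filter fun z => G.Adj v z) ∧ G.Adj p.1 p.2).image Prod.swap).card ≤
        (k + 1) * k := by
    rw [← h3]
    exact Finset.card_image_le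
  have h4 : ((univ : Finset (V × V)).filter fun p => s(p.1, p.2) ∈ F).card ≤ 2 * F.card := by
    rw [mul_comm, ← smul_eq_mul, ← Finset.sum_const]
    have h5 : ((univ : Finset (V × V)).filter fun p => s(p.1, p.2) ∈ F) ⊆
        F.biUnion fun e => (univ : Finset (V × V)).filter fun p => s(p.1, p.2) = e := by
      intro p hp
      simp only [mem_filter, mem_univ, true_and] at hp
      simp only [Finset.mem_biUnion, mem_filter, mem_univ, true_and]
      exact ⟨_, hp, rfl⟩
    refine (Finset.card_le_card h5).trans (Finset.card_biUnion_le.trans ?_)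
    refine Finset.sum_le_sum fun e _ => ?_
    induction e with
    | _ a b =>
      have h6 : ((univ : Finset (V × V)).filter fun p => s(p.1, p.2) = s(a, b)) ⊆
          {(a, b), (b, a)} := by
        rintro ⟨x, y⟩ hp
        simp only [mem_filter, mem_univ, true_and, Sym2.eq_iff] at hp
        simp only [Finset.mem_insert, Finset.mem_singleton, Prod.mk.injEq]
        exact hp
      exact (Finset.card_le_card h6).trans Finset.card_le_two
  have h5 : ((univ : Finset (V × V)).filter fun p => p.1 ∈ (univ : Finset V) ∧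
      G.Adj p.1 p.2) ⊆ good G F u v ∪
      ((univ : Finset (V × V)).filter fun p =>
        p.1 ∈ insert u (univ.filter fun z => G.Adj u z) ∧ G.Adj p.1 p.2) ∪
      (((univ : Finset (V × V)).filter fun p =>
        p.1 ∈ insert v (univ.filter fun z => G.Adj v z) ∧ G.Adj p.1 p.2).image Prod.swap) ∪
      ((univ : Finset (V × V)).filter fun p => s(p.1, p.2) ∈ F) := by
    rintro ⟨x, y⟩ hp
    simp only [mem_filter, mem_univ, true_and] at hp
    simp only [good, Finset.mem_union, mem_filter, mem_univ, true_and, Finset.mem_insert,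
      Finset.mem_image, Prod.exists, Prod.swap_prod_mk, Prod.mk.injEq]
    by_contra hcon
    push Not at hcon
    obtain ⟨⟨⟨h6, h7⟩, h8⟩, h9⟩ := hcon
    have h10 : ¬ (x = u ∨ G.Adj u x) := fun h => h7 h hp
    have h11 : ¬ (y = v ∨ G.Adj v y) := fun h => h8 y x ⟨h, hp.symm⟩ rfl rfl
    push Not at h10 h11
    exact h9 (h6 hp h10.1.symm h10.2 h11.1.symm h11.2)
  have h6 := Finset.card_le_card h5
  rw [h1] at h6
  have h7 := Finset.card_union_le (good G F u v ∪
      ((univ : Finset (V × V)).filter fun p =>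
        p.1 ∈ insert u (univ.filter fun z => G.Adj u z) ∧ G.Adj p.1 p.2) ∪
      (((univ : Finset (V × V)).filter fun p =>
        p.1 ∈ insert v (univ.filter fun z => G.Adj v z) ∧ G.Adj p.1 p.2).image Prod.swap))
      ((univ : Finset (V × V)).filter fun p => s(p.1, p.2) ∈ F)
  have h8 := Finset.card_union_le (good G F u v ∪
      ((univ : Finset (V × V)).filter fun p =>
        p.1 ∈ insert u (univ.filter fun z => G.Adj u z) ∧ G.Adj p.1 p.2))
      (((univ : Finset (V × V)).filter fun p =>
        p.1 ∈ insert v (univ.filter fun z => G.Adj v z) ∧ G.Adj p.1 p.2).image Prod.swap)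
  have h9 := Finset.card_union_le (good G F u v)
      ((univ : Finset (V × V)).filter fun p =>
        p.1 ∈ insert u (univ.filter fun z => G.Adj u z) ∧ G.Adj p.1 p.2)
  omega

/-- One switching step. -/
lemma reg_step {k : ℕ} {F : Finset (Sym2 V)} {e : Sym2 V} (hk : 1 ≤ k) (he : e ∉ F)
    (hn : 4 * (k + 1) + 4 * F.card ≤ Fintype.card V) :
    Fintype.card V * (Reg V k (insert e F)).card ≤ 2 * k * (Reg V k F).card := by
  induction e with
  | _ u v =>
    have h1 := sum_good_le (k := k) he
    have h2 : ∀ G ∈ Reg V k (insert s(u, v) F),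
        Fintype.card V * k ≤ 2 * (good G F u v).card := by
      intro G hG
      rw [mem_Reg] at hG
      have h3 := card_good (F := F) (u := u) (v := v) hG.1
      have h4 : (4 * (k + 1) + 4 * F.card) * k ≤ Fintype.card V * k :=
        Nat.mul_le_mul_right k hn
      have h5 : F.card ≤ F.card * k := Nat.le_mul_of_pos_right _ hk
      nlinarith
    have h3 : (Fintype.card V * k) * (Reg V k (insert s(u, v) F)).card ≤
        2 * (k ^ 2 * (Reg V k F).card) := by
      calc (Fintype.card V * k) * (Reg V k (insert s(u, v) F)).card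
          = ∑ _G ∈ Reg V k (insert s(u, v) F), Fintype.card V * k := by
            rw [Finset.sum_const, smul_eq_mul, mul_comm]
        _ ≤ ∑ G ∈ Reg V k (insert s(u, v) F), 2 * (good G F u v).card := Finset.sum_le_sum h2
        _ = 2 * ∑ G ∈ Reg V k (insert s(u, v) F), (good G F u v).card := by
            rw [Finset.mul_sum]
        _ ≤ 2 * (k ^ 2 * (Reg V k F).card) := Nat.mul_le_mul_left 2 h1
    have h4 : k * (Fintype.card V * (Reg V k (insert s(u, v) F)).card) ≤
        k * (2 * k * (Reg V k F).card) := by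
      calc k * (Fintype.card V * (Reg V k (insert s(u, v) F)).card)
          = (Fintype.card V * k) * (Reg V k (insert s(u, v) F)).card := by ring
        _ ≤ 2 * (k ^ 2 * (Reg V k F).card) := h3
        _ = k * (2 * k * (Reg V k F).card) := by ring
    exact Nat.le_of_mul_le_mul_left h4 hk

/-- **The switching bound**: the number of `k`-regular graphs containing a given set of edges. -/
theorem card_Reg_le {k : ℕ} (hk : 1 ≤ k) (F : Finset (Sym2 V))
    (hn : 4 * (k + 1) + 4 * F.card ≤ Fintype.card V) :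
    Fintype.card V ^ F.card * (Reg V k F).card ≤ (2 * k) ^ F.card * (Reg V k ∅).card := by
  induction F using Finset.induction_on with
  | empty => simp
  | insert e F he ih =>
    rw [Finset.card_insert_of_notMem he] at hn ⊢
    have h1 := ih (by omega)
    have h2 := reg_step hk he (by omega)
    calc Fintype.card V ^ (F.card + 1) * (Reg V k (insert e F)).card
        = Fintype.card V ^ F.card * (Fintype.card V * (Reg V k (insert e F)).card) := by ring
      _ ≤ Fintype.card V ^ F.card * (2 * k * (Reg V k F).card) := Nat.mul_le_mul_left _ h2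
      _ = 2 * k * (Fintype.card V ^ F.card * (Reg V k F).card) := by ring
      _ ≤ 2 * k * ((2 * k) ^ F.card * (Reg V k ∅).card) := Nat.mul_le_mul_left _ h1
      _ = (2 * k) ^ (F.card + 1) * (Reg V k ∅).card := by ring

end

end Pool.Agent.Lib.GHShort
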