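import Mathlib
import Pool.Agent.Lib.GHShort.Switch
import Pool.Agent.Lib.GHShort.BadPair

/-!
# Almost all regular graphs have edge-disjoint short cycles
-/

set_option autoImplicit false

namespace Pool.Agent.Lib.GHShort

open Finset Classical

section

variable {V : Type} [Fintype V]

/-- The possible edges with both ends among the `w i`. -/
noncomputable def cand {r : ℕ} (w : Fin r → V) : Finset (Sym2 V) :=
  (univ : Finset (Fin r × Fin r)).image fun ij => s(w ij.1, w ij.2)

omit [Fintype V] in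
lemma card_cand {r : ℕ} (w : Fin r → V) : (cand w).card ≤ r ^ 2 := by
  refine Finset.card_image_le.trans ?_
  rw [Finset.card_univ, Fintype.card_prod, Fintype.card_fin, sq]

omit [Fintype V] in
lemma exists_list (W : Finset V) (hW : W.Nonempty) {r : ℕ} (hr : W.card ≤ r) :
    ∃ w : Fin r → V, ∀ a ∈ W, ∃ i, w i = a := by
  obtain ⟨a0, -⟩ := hW
  have h1 : Fintype.card W ≤ Fintype.card (Fin r) := by simpa using hr
  obtain ⟨e⟩ := Function.Embedding.nonempty_of_card_le h1
  refine ⟨fun i => if h : ∃ x : W, e x = i then (Classical.choose h).1 else a0, ?_⟩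
  intro a ha
  refine ⟨e ⟨a, ha⟩, ?_⟩
  have h2 : ∃ x : W, e x = e ⟨a, ha⟩ := ⟨_, rfl⟩
  show (if h : ∃ x : W, e x = e ⟨a, ha⟩ then (Classical.choose h).1 else a0) = a
  rw [dif_pos h2]
  have h3 := e.injective (Classical.choose_spec h2)
  rw [h3]

/-- The edge sets of size `r + 1` on the vertices `w i`. -/
noncomputable def cands {r : ℕ} (w : Fin r → V) : Finset (Finset (Sym2 V)) :=
  (cand w).powerset.filter fun F => F.card = r + 1

omit [Fintype V] in
lemma card_cands {r : ℕ} (w : Fin r → V) : (cands w).card ≤ 2 ^ (r ^ 2) := by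
  refine (Finset.card_filter_le _ _).trans ?_
  rw [Finset.card_powerset]
  exact Nat.pow_le_pow_right (by norm_num) (card_cand w)

lemma bad_subset (k d : ℕ) :
    ((Reg V k ∅).filter fun G => ¬ ShortDisj G d) ⊆
      (range (2 * d)).biUnion fun r => (univ : Finset (Fin r → V)).biUnion fun w =>
        (cands w).biUnion fun F => Reg V k F := by
  intro G hG
  rw [Finset.mem_filter, mem_Reg] at hG
  obtain ⟨⟨hG1, -⟩, hG2⟩ := hG
  obtain ⟨F, W, h1, h2, h3, h4, h5⟩ := exists_bad hG2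
  have h6 := h2.card_pos
  obtain ⟨w, hw⟩ := exists_list W h2 (r := F.card - 1) (by omega)
  simp only [Finset.mem_biUnion, Finset.mem_range, mem_univ, true_and]
  refine ⟨F.card - 1, by omega, w, F, ?_, ?_⟩
  · rw [cands, Finset.mem_filter, Finset.mem_powerset]
    refine ⟨?_, by omega⟩
    intro e he
    induction e with
    | _ a b =>
      obtain ⟨i, hi⟩ := hw a (h5 a b he)
      obtain ⟨j, hj⟩ := hw b (h5 b a (by rwa [Sym2.eq_swap]))
      rw [cand, Finset.mem_image]
      exact ⟨(i, j), mem_univ _, by rw [hi, hj]⟩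
  · rw [mem_Reg]
    exact ⟨hG1, h4⟩

lemma sum_cands_le {k d r : ℕ} (hk : 1 ≤ k) (hr : r < 2 * d)
    (hn : 4 * (k + 1) + 8 * d ≤ Fintype.card V) :
    Fintype.card V * ∑ w : Fin r → V, ∑ F ∈ cands w, (Reg V k F).card ≤
      2 ^ (r ^ 2) * ((2 * k) ^ (r + 1) * (Reg V k ∅).card) := by
  have hpos : 0 < Fintype.card V ^ r := Nat.pow_pos (by omega)
  refine Nat.le_of_mul_le_mul_left ?_ hpos
  have h1 : ∀ w : Fin r → V, ∑ F ∈ cands w, Fintype.card V ^ (r + 1) * (Reg V k F).card ≤
      2 ^ (r ^ 2) * ((2 * k) ^ (r + 1) * (Reg V k ∅).card) := by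
    intro w
    calc ∑ F ∈ cands w, Fintype.card V ^ (r + 1) * (Reg V k F).card
        ≤ ∑ _F ∈ cands w, (2 * k) ^ (r + 1) * (Reg V k ∅).card := by
          refine Finset.sum_le_sum fun F hF => ?_
          rw [cands, Finset.mem_filter] at hF
          have h2 := card_Reg_le (V := V) hk F (by rw [hF.2]; omega)
          rwa [hF.2] at h2
      _ = (cands w).card * ((2 * k) ^ (r + 1) * (Reg V k ∅).card) := by
          rw [Finset.sum_const, smul_eq_mul]
      _ ≤ 2 ^ (r ^ 2) * ((2 * k) ^ (r + 1) * (Reg V k ∅).card) :=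
          Nat.mul_le_mul_right _ (card_cands w)
  calc Fintype.card V ^ r * (Fintype.card V * ∑ w : Fin r → V, ∑ F ∈ cands w, (Reg V k F).card)
      = ∑ w : Fin r → V, ∑ F ∈ cands w, Fintype.card V ^ (r + 1) * (Reg V k F).card := by
        rw [← mul_assoc, ← pow_succ, Finset.mul_sum]
        exact Finset.sum_congr rfl fun w _ => Finset.mul_sum _ _ _
    _ ≤ ∑ _w : Fin r → V, 2 ^ (r ^ 2) * ((2 * k) ^ (r + 1) * (Reg V k ∅).card) :=
        Finset.sum_le_sum fun w _ => h1 w
    _ = Fintype.card V ^ r * (2 ^ (r ^ 2) * ((2 * k) ^ (r + 1) * (Reg V k ∅).card)) := by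
        rw [Finset.sum_const, smul_eq_mul, Finset.card_univ, Fintype.card_fun, Fintype.card_fin]

/-- The number of regular graphs in which two short cycles overlap. -/
theorem card_bad_le {k d : ℕ} (hk : 1 ≤ k) (hn : 4 * (k + 1) + 8 * d ≤ Fintype.card V) :
    Fintype.card V * ((Reg V k ∅).filter fun G => ¬ ShortDisj G d).card ≤
      2 * d * 2 ^ ((2 * d) ^ 2) * (2 * k) ^ (2 * d) * (Reg V k ∅).card := by
  have h1 : ((Reg V k ∅).filter fun G => ¬ ShortDisj G d).card ≤
      ∑ r ∈ range (2 * d), ∑ w : Fin r → V, ∑ F ∈ cands w, (Reg V k F).card := by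
    refine (Finset.card_le_card (bad_subset k d)).trans (Finset.card_biUnion_le.trans ?_)
    refine Finset.sum_le_sum fun r _ => Finset.card_biUnion_le.trans ?_
    exact Finset.sum_le_sum fun w _ => Finset.card_biUnion_le
  calc Fintype.card V * ((Reg V k ∅).filter fun G => ¬ ShortDisj G d).card
      ≤ Fintype.card V * ∑ r ∈ range (2 * d), ∑ w : Fin r → V, ∑ F ∈ cands w,
          (Reg V k F).card := Nat.mul_le_mul_left _ h1
    _ = ∑ r ∈ range (2 * d), Fintype.card V * ∑ w : Fin r → V, ∑ F ∈ cands w,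
          (Reg V k F).card := Finset.mul_sum _ _ _
    _ ≤ ∑ _r ∈ range (2 * d), 2 ^ ((2 * d) ^ 2) * ((2 * k) ^ (2 * d) * (Reg V k ∅).card) := by
        refine Finset.sum_le_sum fun r hr => ?_
        rw [Finset.mem_range] at hr
        refine (sum_cands_le hk hr hn).trans ?_
        refine Nat.mul_le_mul ?_ (Nat.mul_le_mul_right _ ?_)
        · exact Nat.pow_le_pow_right (by norm_num) (Nat.pow_le_pow_left hr.le 2)
        · exact Nat.pow_le_pow_right (by omega) (by omega)
    _ = 2 * d * 2 ^ ((2 * d) ^ 2) * (2 * k) ^ (2 * d) * (Reg V k ∅).card := by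
        rw [Finset.sum_const, smul_eq_mul, Finset.card_range]
        ring

end

/-- **Almost all `2 m`-regular graphs have edge-disjoint short cycles.** -/
theorem almost_all {d : ℕ} (hd : 1 ≤ d) : ∃ K : ℕ, ∀ m n : ℕ, 1 ≤ m →
    n * ((Reg (Fin n) (2 * m) ∅).filter fun G => ¬ ShortDisj G d).card ≤
      K * m ^ (2 * d) * (Reg (Fin n) (2 * m) ∅).card := by
  refine ⟨2 * d * 2 ^ ((2 * d) ^ 2) * 4 ^ (2 * d) + (12 + 8 * d), ?_⟩
  intro m n hm
  rcases Nat.lt_or_ge n (4 * (2 * m + 1) + 8 * d) with hn | hn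
  · have h1 : n ≤ (12 + 8 * d) * m ^ (2 * d) := by
      have h2 : m ≤ m ^ (2 * d) := Nat.le_self_pow (by omega) m
      calc n ≤ 4 * (2 * m + 1) + 8 * d := hn.le
        _ ≤ (12 + 8 * d) * m := by nlinarith
        _ ≤ (12 + 8 * d) * m ^ (2 * d) := Nat.mul_le_mul_left _ h2
    refine (Nat.mul_le_mul h1 (Finset.card_filter_le _ _)).trans ?_
    refine Nat.mul_le_mul_right _ (Nat.mul_le_mul_right _ ?_)
    omega
  · have h1 := card_bad_le (V := Fin n) (k := 2 * m) (d := d) (by omega)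
      (by rw [Fintype.card_fin]; exact hn)
    rw [Fintype.card_fin] at h1
    refine h1.trans (Nat.mul_le_mul_right _ ?_)
    have h2 : (2 * (2 * m)) ^ (2 * d) = 4 ^ (2 * d) * m ^ (2 * d) := by
      rw [← mul_assoc, show 2 * 2 = 4 by norm_num, mul_pow]
    rw [h2, add_mul]
    calc 2 * d * 2 ^ (2 * d) ^ 2 * (4 ^ (2 * d) * m ^ (2 * d))
        = 2 * d * 2 ^ (2 * d) ^ 2 * 4 ^ (2 * d) * m ^ (2 * d) := by ring
      _ ≤ _ := Nat.le_add_right _ _

end Pool.Agent.Lib.GHShort
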