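import Mathlib

/-!
# A regular digraph is a union of permutations
-/

set_option autoImplicit false

namespace Pool.Agent.Lib.GHShort

open Finset Classical

section

variable {V : Type} [Fintype V]

/-- Out-degree. -/
noncomputable def od (D : V → V → Prop) (v : V) : ℕ := (univ.filter (fun w => D v w)).card

/-- In-degree. -/
noncomputable def idg (D : V → V → Prop) (v : V) : ℕ := (univ.filter (fun w => D w v)).card

/-- One permutation, by Hall's theorem. -/
lemma exists_perm {D : V → V → Prop} {k : ℕ} (hk : 0 < k) (ho : ∀ v, od D v = k)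
    (hi : ∀ v, idg D v = k) : ∃ π : Equiv.Perm V, ∀ v, D v (π v) := by
  have hall : ∀ s : Finset V, s.card ≤ (s.biUnion (fun v => univ.filter (fun w => D v w))).card := by
    intro s
    set t := s.biUnion (fun v => univ.filter (fun w => D v w)) with ht
    have h1 : ∑ v ∈ s, od D v ≤ ∑ w ∈ t, idg D w := by
      have h2 : ∑ v ∈ s, od D v = ((s ×ˢ univ).filter (fun p : V × V => D p.1 p.2)).card := by
        rw [Finset.card_filter, Finset.sum_product]
        refine Finset.sum_congr rfl fun v _ => ?_
        unfold od
        rw [Finset.card_filter]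
      have h3 : ∑ w ∈ t, idg D w = ((t ×ˢ univ).filter (fun p : V × V => D p.2 p.1)).card := by
        rw [Finset.card_filter, Finset.sum_product]
        refine Finset.sum_congr rfl fun v _ => ?_
        unfold idg
        rw [Finset.card_filter]
      rw [h2, h3]
      refine Finset.card_le_card_of_injOn (fun p => (p.2, p.1)) ?_ ?_
      · rintro ⟨v, w⟩ hp
        simp only [Finset.coe_filter, Finset.mem_product, Finset.mem_univ, and_true,
          Set.mem_ofPred_eq] at hp ⊢
        refine ⟨?_, hp.2⟩
        rw [ht, Finset.mem_biUnion]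
        exact ⟨v, hp.1, Finset.mem_filter.mpr ⟨Finset.mem_univ _, hp.2⟩⟩
      · rintro ⟨v, w⟩ _ ⟨v', w'⟩ _ h
        simp only [Prod.mk.injEq] at h
        rw [h.1, h.2]
    simp only [ho, hi, Finset.sum_const, smul_eq_mul] at h1
    exact Nat.le_of_mul_le_mul_right h1 hk
  obtain ⟨f, hf, hf2⟩ := (Finset.all_card_le_biUnion_card_iff_exists_injective _).mp hall
  refine ⟨Equiv.ofBijective f (Finite.injective_iff_bijective.mp hf), fun v => ?_⟩
  exact (Finset.mem_filter.mp (hf2 v)).2

/-- The decomposition. -/
theorem exists_perms (k : ℕ) : ∀ D : V → V → Prop, (∀ v, od D v = k) → (∀ v, idg D v = k) →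
    ∃ π : Fin k → Equiv.Perm V, (∀ i v, D v (π i v)) ∧ ∀ v w, D v w → ∃! i, π i v = w := by
  induction k with
  | zero =>
    intro D ho _
    refine ⟨fun i => i.elim0, fun i => i.elim0, ?_⟩
    intro v w hvw
    have h1 := ho v
    unfold od at h1
    rw [Finset.card_eq_zero] at h1
    have h2 : w ∈ univ.filter (fun w => D v w) := Finset.mem_filter.mpr ⟨Finset.mem_univ _, hvw⟩
    rw [h1] at h2
    exact absurd h2 (Finset.notMem_empty _)
  | succ k ih =>
    intro D ho hi
    obtain ⟨π0, hπ0⟩ := exists_perm (Nat.succ_pos k) ho hi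
    have hod : ∀ v, od (fun v w => D v w ∧ w ≠ π0 v) v = k := by
      intro v
      have h1 : od (fun v w => D v w ∧ w ≠ π0 v) v =
          ((univ.filter (fun w => D v w)).erase (π0 v)).card := by
        unfold od
        congr 1
        ext w
        simp only [Finset.mem_filter, Finset.mem_univ, true_and, Finset.mem_erase]
        tauto
      have h2 := ho v
      unfold od at h2
      rw [h1, Finset.card_erase_of_mem (Finset.mem_filter.mpr ⟨Finset.mem_univ _, hπ0 v⟩), h2]
      rfl
    have hid : ∀ v, idg (fun v w => D v w ∧ w ≠ π0 v) v = k := by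
      intro w
      have h1 : idg (fun v w => D v w ∧ w ≠ π0 v) w =
          ((univ.filter (fun v => D v w)).erase (π0.symm w)).card := by
        unfold idg
        congr 1
        ext v
        simp only [Finset.mem_filter, Finset.mem_univ, true_and, Finset.mem_erase]
        constructor
        · rintro ⟨h1, h2⟩
          refine ⟨fun h3 => h2 ?_, h1⟩
          rw [h3, Equiv.apply_symm_apply]
        · rintro ⟨h1, h2⟩
          refine ⟨h2, fun h3 => h1 ?_⟩
          rw [h3, Equiv.symm_apply_apply]
      have h2 := hi w
      unfold idg at h2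
      rw [h1, Finset.card_erase_of_mem (Finset.mem_filter.mpr ⟨Finset.mem_univ _, by
        have := hπ0 (π0.symm w)
        rwa [Equiv.apply_symm_apply] at this⟩), h2]
      rfl
    obtain ⟨π, hπ1, hπ2⟩ := ih _ hod hid
    refine ⟨Fin.cons π0 π, ?_, ?_⟩
    · intro i v
      refine Fin.cases ?_ (fun i => ?_) i
      · exact hπ0 v
      · exact (hπ1 i v).1
    · intro v w hvw
      by_cases h0 : w = π0 v
      · refine ⟨0, h0.symm, ?_⟩
        intro i
        refine Fin.cases (fun _ => rfl) (fun i hi' => ?_) i
        exact absurd h0 (by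
          have := (hπ1 i v).2
          have h3 : π i v = w := hi'
          rw [h3] at this
          exact this)
      · obtain ⟨i, h1, h2⟩ := hπ2 v w ⟨hvw, h0⟩
        refine ⟨i.succ, h1, ?_⟩
        intro j
        refine Fin.cases (fun h3 => ?_) (fun j h3 => ?_) j
        · exact absurd (show π0 v = w from h3).symm h0
        · exact congrArg Fin.succ (h2 j h3)

end

end Pool.Agent.Lib.GHShort
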