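import Mathlib

/-!
# Potentials on trees
-/

set_option autoImplicit false

namespace Pool.Agent.Lib.GHShort

open Classical

section

variable {W : Type} {T : SimpleGraph W} {Γ : Type} [Group Γ]

/-- The product along a walk. -/
def wprod (h : W → W → Γ) {r : W} : {x : W} → T.Walk x r → Γ
  | _, .nil => 1
  | _, .cons (u := x) (v := y) _ p => h y x * wprod h p

/-- A group valued function on the arcs of a tree is the difference of a potential. -/
theorem tree_potential (hT : T.IsTree) (h : W → W → Γ)
    (hh : ∀ x y, T.Adj x y → h y x = (h x y)⁻¹) :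
    ∃ P : W → Γ, ∀ x y, T.Adj x y → P y = h x y * P x := by
  obtain ⟨r⟩ := hT.connected.nonempty
  have hex := fun x => hT.existsUnique_path x r
  choose p hp hu using hex
  simp only at hp hu
  have key : ∀ x y, T.Adj x y → y ∉ (p x).support → wprod h (p y) = h x y * wprod h (p x) := by
    intro x y hxy hy
    have h1 : p y = SimpleGraph.Walk.cons hxy.symm (p x) := by
      refine (hu y _ ?_).symm
      rw [SimpleGraph.Walk.cons_isPath_iff]
      exact ⟨hp x, hy⟩
    rw [h1]
    rfl
  have hlen : ∀ x y, x ≠ y → y ∈ (p x).support → (p y).length < (p x).length := by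
    intro x y hxy hy
    have h1 : (p x).dropUntil y hy = p y := hu y _ ((hp x).dropUntil hy)
    have h2 := congrArg SimpleGraph.Walk.length ((p x).take_spec hy)
    rw [SimpleGraph.Walk.length_append, h1] at h2
    have h3 : ((p x).takeUntil y hy).length ≠ 0 := by
      intro h4
      exact hxy (SimpleGraph.Walk.eq_of_length_eq_zero h4)
    omega
  refine ⟨fun x => wprod h (p x), ?_⟩
  intro x y hxy
  by_cases hy : y ∈ (p x).support
  · by_cases hx : x ∈ (p y).support
    · have h1 := hlen x y hxy.ne hy
      have h2 := hlen y x hxy.ne.symm hx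
      omega
    · have h1 := key y x hxy.symm hx
      show wprod h (p y) = h x y * wprod h (p x)
      rw [h1, hh x y hxy, mul_inv_cancel_left]
  · exact key x y hxy hy

/-- A proper colouring with two colours. -/
theorem tree_colour (hT : T.IsTree) : ∃ c : W → Bool, ∀ x y, T.Adj x y → c y = !(c x) := by
  obtain ⟨P, hP⟩ := tree_potential (Γ := Multiplicative (ZMod 2)) hT
    (fun _ _ => Multiplicative.ofAdd 1) (fun _ _ _ => by decide)
  refine ⟨fun x => decide (P x = 1), fun x y hxy => ?_⟩
  have h1 := hP x y hxy
  have key : ∀ a b : Multiplicative (ZMod 2), b = Multiplicative.ofAdd 1 * a →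
      (decide (b = 1)) = !(decide (a = 1)) := by decide
  have h2 := key (P x) (P y) h1
  convert h2

end

end Pool.Agent.Lib.GHShort
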