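import Mathlib
import Pool.Agent.Lib.GHShort.Invol
import Pool.Agent.Lib.GHShort.Konig
import Pool.Agent.Lib.GHShort.TreePot

/-!
# Tree decompositions of regular graphs whose short cycles are edge-disjoint
-/

set_option autoImplicit false

namespace Pool.Agent.Lib.GHShort

open Finset Classical

section

variable {W V : Type} {T : SimpleGraph W} {G : SimpleGraph V}

lemma dist_le_of_mem {x y : W} (p : T.Walk x y) {a b : W} (ha : a ∈ p.support)
    (hb : b ∈ p.support) : T.dist a b ≤ p.length := by
  have h1 := congrArg SimpleGraph.Walk.length (p.take_spec ha)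
  rw [SimpleGraph.Walk.length_append] at h1
  have h2 : b ∈ ((p.takeUntil a ha).append (p.dropUntil a ha)).support := by
    rw [p.take_spec ha]
    exact hb
  rw [SimpleGraph.Walk.mem_support_append_iff] at h2
  rcases h2 with h2 | h2
  · have h3 := congrArg SimpleGraph.Walk.length ((p.takeUntil a ha).take_spec h2)
    rw [SimpleGraph.Walk.length_append] at h3
    have h4 := SimpleGraph.dist_le ((p.takeUntil a ha).dropUntil b h2)
    rw [SimpleGraph.dist_comm]
    omega
  · have h3 := congrArg SimpleGraph.Walk.length ((p.dropUntil a ha).take_spec h2)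
    rw [SimpleGraph.Walk.length_append] at h3
    have h4 := SimpleGraph.dist_le ((p.dropUntil a ha).takeUntil b h2)
    omega

/-- A homomorphism which is locally injective and alternates along the arcs of `D` is injective if
the short cycles are directed. -/
lemma injective_of_directed (hT : T.IsTree) {d : ℕ} (hd : ∀ x y : W, T.dist x y ≤ d)
    {D : V → V → Prop} (hD2 : ∀ u v, G.Adj u v → (D v u ↔ ¬ D u v))
    (hD4 : ∀ (z : V) (p : G.Walk z z), p.IsCycle → p.length ≤ d → ∀ u v w, s(v, u) ∈ p.edges →
        s(v, w) ∈ p.edges → u ≠ w → (D u v ↔ D v w))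
    (f : T →g G) (hloc : ∀ z a b, T.Adj z a → T.Adj z b → f a = f b → a = b)
    (c : W → Bool) (halt : ∀ x y, T.Adj x y → (D (f x) (f y) ↔ c x = true)) :
    Function.Injective f := by
  have key : ∀ n : ℕ, ∀ x y : W, T.dist x y = n → f x = f y → x = y := by
    intro n
    induction n using Nat.strong_induction_on with
    | _ n ih =>
    intro x y hn hxy
    by_contra hne
    obtain ⟨p, hp, hpl⟩ := hT.connected.exists_path_of_dist x y
    have hlt : ∀ a b, T.dist a b < n → f a = f b → a = b := fun a b h => ih _ h a b rfl
    cases p with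
    | nil => exact hne rfl
    | @cons _ x1 _ hx1 p' =>
      rw [SimpleGraph.Walk.cons_isPath_iff] at hp
      rw [SimpleGraph.Walk.length_cons] at hpl
      have hinj : ∀ a ∈ p'.support, ∀ b ∈ p'.support, f a = f b → a = b := by
        intro a ha b hb hab
        refine hlt a b ?_ hab
        have := dist_le_of_mem p' ha hb
        omega
      -- the mapped walk is a cycle
      let q : G.Walk (f x1) (f x) := (p'.map f).copy rfl hxy.symm
      have hqsup : q.support = p'.support.map f := by
        show ((p'.map f).copy rfl hxy.symm).support = _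
        rw [SimpleGraph.Walk.support_copy, SimpleGraph.Walk.support_map]
      have hqed : q.edges = p'.edges.map (Sym2.map f) := by
        show ((p'.map f).copy rfl hxy.symm).edges = _
        rw [SimpleGraph.Walk.edges_copy, SimpleGraph.Walk.edges_map]
      have hqlen : q.length = p'.length := by
        show ((p'.map f).copy rfl hxy.symm).length = _
        rw [SimpleGraph.Walk.length_copy, SimpleGraph.Walk.length_map]
      have hq : q.IsPath := by
        rw [SimpleGraph.Walk.isPath_def, hqsup]
        exact (hp.1.support_nodup).map_on fun a ha b hb hab => hinj a ha b hb hab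
      have hcyc : (SimpleGraph.Walk.cons (f.map_adj hx1) q).IsCycle := by
        rw [SimpleGraph.Walk.cons_isCycle_iff]
        refine ⟨hq, ?_⟩
        intro hmem
        rw [hqed, List.mem_map] at hmem
        obtain ⟨e, he, he2⟩ := hmem
        induction e with
        | _ a b =>
          rw [Sym2.map_mk, hxy, Sym2.eq_iff] at he2
          have ha := SimpleGraph.Walk.fst_mem_support_of_mem_edges p' he
          have hb := SimpleGraph.Walk.snd_mem_support_of_mem_edges p' he
          have hy : y ∈ p'.support := p'.end_mem_support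
          have hx1m : x1 ∈ p'.support := p'.start_mem_support
          have hadj : T.Adj a b := p'.adj_of_mem_edges he
          have hy1 : T.Adj x1 y := by
            rcases he2 with ⟨h1, h2⟩ | ⟨h1, h2⟩
            · have h3 := hinj a ha y hy h1
              have h4 := hinj b hb x1 hx1m h2
              rw [h3, h4] at hadj
              exact hadj.symm
            · have h3 := hinj a ha x1 hx1m h1
              have h4 := hinj b hb y hy h2
              rw [h3, h4] at hadj
              exact hadj
          exact hne (hloc x1 x y hx1.symm hy1 hxy)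
      have hshort : (SimpleGraph.Walk.cons (f.map_adj hx1) q).length ≤ d := by
        rw [SimpleGraph.Walk.length_cons, hqlen, hpl]
        exact hd x y
      cases p' with
      | nil =>
        have := f.map_adj hx1
        rw [hxy] at this
        exact this.ne rfl
      | @cons _ x2 _ hx2 p'' =>
        have hne2 : f x ≠ f x2 := by
          intro h
          have h1 := hloc x1 x x2 hx1.symm hx2 h
          refine hp.2 ?_
          rw [h1, SimpleGraph.Walk.support_cons]
          exact List.mem_cons_of_mem _ p''.start_mem_support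
        have h1 : s(f x1, f x) ∈ (SimpleGraph.Walk.cons (f.map_adj hx1) q).edges := by
          rw [SimpleGraph.Walk.edges_cons, Sym2.eq_swap]
          exact List.mem_cons_self
        have h2 : s(f x1, f x2) ∈ (SimpleGraph.Walk.cons (f.map_adj hx1) q).edges := by
          rw [SimpleGraph.Walk.edges_cons, hqed, SimpleGraph.Walk.edges_cons, List.map_cons,
            Sym2.map_mk]
          exact List.mem_cons_of_mem _ List.mem_cons_self
        have h3 := hD4 _ _ hcyc hshort (f x) (f x1) (f x2) h1 h2 hne2
        have h4 := halt x1 x hx1.symm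
        have h5 := halt x1 x2 hx2
        have h6 := hD2 (f x1) (f x) (f.map_adj hx1.symm)
        rw [h5, h6, h4] at h3
        tauto
  intro x y hxy
  exact key _ x y rfl hxy

end

section

variable {W V : Type} [Fintype W] [Fintype V] {T : SimpleGraph W} {G : SimpleGraph V}

/-- The decomposition from a balanced orientation in which the short cycles are directed. -/
theorem decomp_of_directed (hT : T.IsTree) {d : ℕ} (hd : ∀ x y : W, T.dist x y ≤ d)
    {D : V → V → Prop} (hD1 : ∀ u v, D u v → G.Adj u v)
    (hD2 : ∀ u v, G.Adj u v → (D v u ↔ ¬ D u v))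
    (hD4 : ∀ (z : V) (p : G.Walk z z), p.IsCycle → p.length ≤ d → ∀ u v w, s(v, u) ∈ p.edges →
        s(v, w) ∈ p.edges → u ≠ w → (D u v ↔ D v w))
    (ho : ∀ v, od D v = T.edgeSet.ncard) (hi : ∀ v, idg D v = T.edgeSet.ncard) :
    ∃ f : V → (T →g G), (∀ v, Function.Injective (f v)) ∧
      ∀ e ∈ G.edgeSet, ∃! p : V × Sym2 W,
        p.2 ∈ T.edgeSet ∧ Sym2.map (⇑(f p.1)) p.2 = e := by
  obtain ⟨π, hπ1, hπ2⟩ := exists_perms _ D ho hi
  -- labels of the edges of the tree
  have hcard : Fintype.card T.edgeSet = T.edgeSet.ncard := by
    rw [Set.ncard_eq_toFinset_card', Set.toFinset_card]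
  let lab : T.edgeSet ≃ Fin T.edgeSet.ncard := Fintype.equivFinOfCardEq hcard
  let lb : Sym2 W → Equiv.Perm V := fun e => if h : e ∈ T.edgeSet then π (lab ⟨e, h⟩) else 1
  obtain ⟨c, hc⟩ := tree_colour hT
  obtain ⟨P, hP⟩ := tree_potential hT
    (fun x y => if c x = true then lb s(x, y) else (lb s(x, y))⁻¹) (by
      intro x y hxy
      have h1 := hc x y hxy
      rw [Sym2.eq_swap]
      cases hx : c x <;> rw [hx] at h1 <;> simp [h1])
  -- black to white
  have hPD : ∀ x y, T.Adj x y → c x = true → ∀ v, P y v = lb s(x, y) (P x v) := by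
    intro x y hxy hx v
    rw [hP x y hxy, if_pos hx, Equiv.Perm.mul_apply]
  have hlb : ∀ x y (h : T.Adj x y), lb s(x, y) = π (lab ⟨s(x, y), h⟩) := by
    intro x y h
    exact dif_pos (show s(x, y) ∈ T.edgeSet from h)
  have hDD : ∀ x y, T.Adj x y → c x = true → ∀ v, D (P x v) (P y v) := by
    intro x y hxy hx v
    rw [hPD x y hxy hx, hlb x y hxy]
    exact hπ1 _ _
  have halt : ∀ v x y, T.Adj x y → (D (P x v) (P y v) ↔ c x = true) := by
    intro v x y hxy
    constructor
    · intro h
      by_contra hx
      have hy : c y = true := by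
        rw [hc x y hxy]
        simpa using hx
      have h1 := hDD y x hxy.symm hy v
      exact (hD2 _ _ (hD1 _ _ h)).mp h1 h
    · intro h
      exact hDD x y hxy h v
  have hadj : ∀ v x y, T.Adj x y → G.Adj (P x v) (P y v) := by
    intro v x y hxy
    cases hx : c x with
    | true => exact hD1 _ _ (hDD x y hxy hx v)
    | false =>
      have hy : c y = true := by
        rw [hc x y hxy, hx]
        rfl
      exact (hD1 _ _ (hDD y x hxy.symm hy v)).symm
  let f : V → (T →g G) := fun v => ⟨fun x => P x v, fun {x y} h => hadj v x y h⟩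
  have hfx : ∀ v x, f v x = P x v := fun _ _ => rfl
  have hloc : ∀ v z a b, T.Adj z a → T.Adj z b → f v a = f v b → a = b := by
    intro v z a b ha hb hab
    rw [hfx, hfx] at hab
    cases hz : c z with
    | true =>
      have h1 := hPD z a ha hz v
      have h2 := hPD z b hb hz v
      rw [hlb z a ha] at h1
      rw [hlb z b hb, ← hab] at h2
      have h3 := (hπ2 _ _ (hDD z a ha hz v)).unique h1.symm h2.symm
      have h4 := congrArg Subtype.val (lab.injective h3)
      simp only [Sym2.eq_iff] at h4
      rcases h4 with h4 | h4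
      · exact h4.2
      · rw [← h4.1, h4.2]
    | false =>
      have hca : c a = true := by
        rw [hc z a ha, hz]
        rfl
      have hcb : c b = true := by
        rw [hc z b hb, hz]
        rfl
      have h1 := hPD a z ha.symm hca v
      have h2 := hPD b z hb.symm hcb v
      rw [hlb a z ha.symm] at h1
      rw [hlb b z hb.symm, ← hab] at h2
      have h3 := (hπ2 _ _ (hDD a z ha.symm hca v)).unique h1.symm h2.symm
      have h4 := congrArg Subtype.val (lab.injective h3)
      simp only [Sym2.eq_iff] at h4
      rcases h4 with h4 | h4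
      · exact h4.1
      · rw [h4.1, ← h4.2]
  refine ⟨f, fun v => injective_of_directed hT hd hD2 hD4 (f v) (hloc v) c (halt v), ?_⟩
  -- every arc is covered exactly once
  have harc : ∀ a b, D a b → ∃! p : V × Sym2 W,
      p.2 ∈ T.edgeSet ∧ Sym2.map (⇑(f p.1)) p.2 = s(a, b) := by
    intro a b hab
    obtain ⟨i, hi1, hi2⟩ := hπ2 a b hab
    obtain ⟨⟨e, he⟩, hei⟩ := lab.surjective i
    have hex : ∃ x y, c x = true ∧ e = s(x, y) := by
      induction e with
      | _ x y =>
        cases hx : c x with
        | true => exact ⟨x, y, hx, rfl⟩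
        | false =>
          refine ⟨y, x, ?_, Sym2.eq_swap⟩
          rw [hc x y he, hx]
          rfl
    obtain ⟨x, y, hx, rfl⟩ := hex
    have hxy : T.Adj x y := he
    have hlx : lb s(x, y) = π i := by
      rw [hlb x y hxy, hei]
    refine ⟨((P x).symm a, s(x, y)), ⟨he, ?_⟩, ?_⟩
    · show Sym2.map (⇑(f ((P x).symm a))) s(x, y) = s(a, b)
      rw [Sym2.map_mk, hfx, hfx, hPD x y hxy hx, Equiv.apply_symm_apply, hlx, hi1]
    · rintro ⟨v, e'⟩ ⟨he', hm⟩
      simp only at he' hm
      have hex' : ∃ x' y', c x' = true ∧ e' = s(x', y') := by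
        induction e' with
        | _ x' y' =>
          cases hx' : c x' with
          | true => exact ⟨x', y', hx', rfl⟩
          | false =>
            refine ⟨y', x', ?_, Sym2.eq_swap⟩
            rw [hc x' y' he', hx']
            rfl
      obtain ⟨x', y', hx', rfl⟩ := hex'
      have hxy' : T.Adj x' y' := he'
      rw [Sym2.map_mk, hfx, hfx, Sym2.eq_iff] at hm
      have hD' := hDD x' y' hxy' hx' v
      have hm' : P x' v = a ∧ P y' v = b := by
        rcases hm with hm | hm
        · exact hm
        · rw [hm.1, hm.2] at hD'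
          exact absurd hab ((hD2 _ _ (hD1 _ _ hab)).mp hD')
      have h1 := hPD x' y' hxy' hx' v
      rw [hm'.1, hm'.2, hlb x' y' hxy'] at h1
      have h2 : lab ⟨s(x', y'), hxy'⟩ = i := hi2 _ h1.symm
      rw [← hei] at h2
      have h3 := congrArg Subtype.val (lab.injective h2)
      simp only at h3
      have h4 : x' = x := by
        rw [Sym2.eq_iff] at h3
        rcases h3 with h3 | h3
        · exact h3.1
        · exfalso
          have h5 := hc x y hxy
          rw [← h3.1, hx', hx] at h5
          simp at h5
      rw [h3, ← hm'.1, h4, Equiv.symm_apply_apply]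
  intro e he
  induction e with
  | _ a b =>
    have hab : G.Adj a b := he
    by_cases h : D a b
    · exact harc a b h
    · have h1 := (hD2 a b hab).mpr h
      rw [Sym2.eq_swap]
      exact harc b a h1

/-- **Theorem.** If the cycles of length at most `diam T` are pairwise edge-disjoint then every
`2 e(T)`-regular graph decomposes into copies of `T`. -/
theorem decomp_of_shortDisj (hT : T.IsTree) {d : ℕ} (hd : ∀ x y : W, T.dist x y ≤ d)
    (hreg : ∀ v, (univ.filter (fun u => G.Adj v u)).card = 2 * T.edgeSet.ncard)
    (hdisj : ShortDisj G d) :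
    ∃ f : V → (T →g G), (∀ v, Function.Injective (f v)) ∧
      ∀ e ∈ G.edgeSet, ∃! p : V × Sym2 W,
        p.2 ∈ T.edgeSet ∧ Sym2.map (⇑(f p.1)) p.2 = e := by
  obtain ⟨D, hD1, hD2, ⟨τ, hτ, hD3⟩, hD4⟩ := exists_directed d (fun v => by
    rw [hreg v]
    exact even_two_mul _) hdisj
  refine decomp_of_directed hT hd hD1 hD2 hD4 ?_ ?_
  · intro v
    exact (orient_degrees hD1 hD2 hτ hD3 v (hreg v)).1
  · intro v
    exact (orient_degrees hD1 hD2 hτ hD3 v (hreg v)).2

end

end Pool.Agent.Lib.GHShort
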